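import Mathlib

/-!
# The Thue-Morse word: block structure, balance and correlations
-/

set_option autoImplicit false

namespace Pool.Agent.H96toe

/-- The Thue-Morse sequence: `tm (2 n) = tm n`, `tm (2 n + 1) = not (tm n)`. -/
def tm (n : ℕ) : Bool :=
  if h : n = 0 then false
  else xor (tm (n / 2)) (decide (n % 2 = 1))
  termination_by n
  decreasing_by omega

lemma tm_zero : tm 0 = false := by
  rw [tm]; simp

lemma tm_two (n : ℕ) : tm (2 * n) = tm n := by
  by_cases h : n = 0
  · subst h; rfl
  · rw [tm]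
    rw [dif_neg (by omega)]
    have h1 : 2 * n / 2 = n := by omega
    have h2 : 2 * n % 2 = 0 := by omega
    rw [h1, h2]
    simp

lemma tm_two_one (n : ℕ) : tm (2 * n + 1) = !(tm n) := by
  rw [tm]
  rw [dif_neg (by omega)]
  have h1 : (2 * n + 1) / 2 = n := by omega
  have h2 : (2 * n + 1) % 2 = 1 := by omega
  rw [h1, h2]
  simp

lemma tm_block (e : ℕ) : ∀ j r : ℕ, r < 2 ^ e → tm (2 ^ e * j + r) = xor (tm j) (tm r) := by
  induction e with
  | zero =>
    intro j r hr
    have : r = 0 := by simpa using hr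
    subst this
    simp [tm_zero]
  | succ e ih =>
    intro j r hr
    have hr2 : r / 2 < 2 ^ e := by
      rw [pow_succ] at hr
      omega
    rcases Nat.even_or_odd' r with ⟨r', h | h⟩
    · subst h
      have e1 : 2 ^ (e + 1) * j + 2 * r' = 2 * (2 ^ e * j + r') := by ring
      rw [e1, tm_two, tm_two, ih j r' (by omega)]
    · subst h
      have e1 : 2 ^ (e + 1) * j + (2 * r' + 1) = 2 * (2 ^ e * j + r') + 1 := by ring
      rw [e1, tm_two_one, tm_two_one, ih j r' (by omega)]
      cases tm j <;> cases tm r' <;> rfl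

lemma tm_last (m : ℕ) : tm (4 ^ m - 1) = false := by
  induction m with
  | zero => simp [tm_zero]
  | succ m ih =>
    have h0 : 0 < 4 ^ m := by positivity
    have e1 : 4 ^ (m + 1) - 1 = 2 * (2 * (4 ^ m - 1) + 1) + 1 := by
      rw [pow_succ]; omega
    rw [e1, tm_two_one, tm_two_one, ih]
    rfl

/-- sign of the Thue-Morse sequence -/
def sg (b : Bool) : ℤ := if b then -1 else 1

lemma sg_not (b : Bool) : sg (!b) = - sg b := by cases b <;> rfl
lemma sg_xor (a b : Bool) : sg (xor a b) = sg a * sg b := by cases a <;> cases b <;> rfl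
lemma sg_abs (b : Bool) : |sg b| = 1 := by cases b <;> rfl
lemma sg_sq (b : Bool) : sg b * sg b = 1 := by cases b <;> rfl

/-- correlation sum -/
def DD (M n : ℕ) : ℤ := ∑ i ∈ Finset.range (2 ^ M), sg (tm i) * sg (tm (i + n))

lemma sum_range_two (f : ℕ → ℤ) (N : ℕ) :
    ∑ i ∈ Finset.range (2 * N), f i =
      ∑ i ∈ Finset.range N, f (2 * i) + ∑ i ∈ Finset.range N, f (2 * i + 1) := by
  induction N with
  | zero => simp
  | succ N ih =>
    have : 2 * (N + 1) = 2 * N + 1 + 1 := by ring
    rw [this, Finset.sum_range_succ, Finset.sum_range_succ, ih, Finset.sum_range_succ,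
      Finset.sum_range_succ]
    ring

lemma DD_even (M n : ℕ) : DD (M + 1) (2 * n) = 2 * DD M n := by
  unfold DD
  rw [pow_succ, mul_comm (2 ^ M) 2, sum_range_two]
  have h1 : ∀ i, sg (tm (2 * i)) * sg (tm (2 * i + 2 * n)) = sg (tm i) * sg (tm (i + n)) := by
    intro i
    rw [tm_two, show 2 * i + 2 * n = 2 * (i + n) by ring, tm_two]
  have h2 : ∀ i, sg (tm (2 * i + 1)) * sg (tm (2 * i + 1 + 2 * n)) =
      sg (tm i) * sg (tm (i + n)) := by
    intro i
    rw [tm_two_one, show 2 * i + 1 + 2 * n = 2 * (i + n) + 1 by ring, tm_two_one, sg_not, sg_not]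
    ring
  simp only [h1, h2]
  ring

lemma DD_odd (M n : ℕ) : DD (M + 1) (2 * n + 1) = - (DD M n + DD M (n + 1)) := by
  unfold DD
  rw [pow_succ, mul_comm (2 ^ M) 2, sum_range_two]
  have h1 : ∀ i, sg (tm (2 * i)) * sg (tm (2 * i + (2 * n + 1))) =
      - (sg (tm i) * sg (tm (i + n))) := by
    intro i
    rw [tm_two, show 2 * i + (2 * n + 1) = 2 * (i + n) + 1 by ring, tm_two_one, sg_not]
    ring
  have h2 : ∀ i, sg (tm (2 * i + 1)) * sg (tm (2 * i + 1 + (2 * n + 1))) =
      - (sg (tm i) * sg (tm (i + (n + 1)))) := by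
    intro i
    rw [tm_two_one, show 2 * i + 1 + (2 * n + 1) = 2 * (i + (n + 1)) by ring, tm_two, sg_not]
    ring
  simp only [h1, h2, Finset.sum_neg_distrib]
  ring

lemma DD_zero (M : ℕ) : DD M 0 = 2 ^ M := by
  unfold DD
  simp [sg_sq]

lemma DD_one (M : ℕ) : 3 * DD M 1 = - 2 ^ M - 2 * (-1) ^ M := by
  induction M with
  | zero =>
    unfold DD
    have h1 : tm 1 = true := by
      have := tm_two_one 0
      simpa [tm_zero] using this
    simp [tm_zero, h1, sg]
  | succ M ih =>
    have := DD_odd M 0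
    rw [show 2 * 0 + 1 = 1 by ring, DD_zero] at this
    rw [this]
    have h3 : DD M (0 + 1) = DD M 1 := by rw [zero_add]
    rw [h3, pow_succ, pow_succ]
    linarith

lemma DD_bound (M : ℕ) : ∀ n : ℕ, 1 ≤ n → |3 * DD M n| ≤ 2 ^ M + 2 * n := by
  induction M with
  | zero =>
    intro n hn
    unfold DD
    simp only [pow_zero, Finset.sum_range_one, abs_mul, sg_abs]
    have : (1 : ℤ) ≤ n := by exact_mod_cast hn
    simp
    linarith
  | succ M ih =>
    intro n hn
    rcases Nat.even_or_odd' n with ⟨k, h | h⟩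
    · subst h
      have hk : 1 ≤ k := by omega
      have := ih k hk
      rw [DD_even, show 3 * (2 * DD M k) = 2 * (3 * DD M k) by ring, abs_mul]
      rw [pow_succ]
      push_cast
      have h2 : |(2 : ℤ)| = 2 := rfl
      rw [h2]
      linarith
    · subst h
      rcases Nat.eq_zero_or_pos k with hk | hk
      · subst hk
        have h1 := DD_one (M + 1)
        rw [show 2 * 0 + 1 = 1 by ring, h1]
        have h2 : |(- 2 ^ (M + 1) - 2 * (-1) ^ (M + 1) : ℤ)| ≤
            |(- 2 ^ (M + 1) : ℤ)| + |(2 * (-1) ^ (M + 1) : ℤ)| := abs_sub _ _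
        have h3 : |(- 2 ^ (M + 1) : ℤ)| = 2 ^ (M + 1) := by
          rw [abs_neg, abs_of_nonneg (by positivity)]
        have h4 : |(2 * (-1) ^ (M + 1) : ℤ)| = 2 := by
          rw [abs_mul, abs_pow]
          simp
        rw [h3, h4] at h2
        push_cast
        linarith
      · have h1 := ih k hk
        have h2 := ih (k + 1) (by omega)
        rw [DD_odd]
        have h3 : |3 * -(DD M k + DD M (k + 1))| ≤ |3 * DD M k| + |3 * DD M (k + 1)| := by
          rw [show 3 * -(DD M k + DD M (k + 1)) = -(3 * DD M k + 3 * DD M (k + 1)) by ring,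
            abs_neg]
          exact abs_add_le _ _
        rw [pow_succ]
        push_cast at h2 ⊢
        linarith

/-- the number of `i < 2 ^ M` with `tm i ≠ tm (i + n)` -/
lemma diff_count (M n : ℕ) (hn : 1 ≤ n) :
    (2 ^ M : ℤ) - n ≤ 3 * ((Finset.range (2 ^ M)).filter fun i => tm i ≠ tm (i + n)).card := by
  have h1 : ∀ i, sg (tm i) * sg (tm (i + n)) = 1 - 2 * (if tm i ≠ tm (i + n) then 1 else 0) := by
    intro i
    cases tm i <;> cases tm (i + n) <;> simp [sg]
  have h2 : DD M n = 2 ^ M - 2 *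
      ((Finset.range (2 ^ M)).filter fun i => tm i ≠ tm (i + n)).card := by
    unfold DD
    rw [Finset.sum_congr rfl fun i _ => h1 i, Finset.sum_sub_distrib, ← Finset.mul_sum,
      Finset.card_filter]
    push_cast
    simp
  have h3 := DD_bound M n hn
  rw [h2] at h3
  have h4 := (abs_le.1 h3).2
  linarith

/-- balance: half of the letters of a block of length `2 ^ (e + 1)` -/
lemma balance (e : ℕ) (c : Bool) :
    ((Finset.range (2 ^ (e + 1))).filter fun i => tm i = c).card = 2 ^ e := by
  have key : ∀ N : ℕ, ((Finset.range (2 * N)).filter fun i => tm i = c).card = N := by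
    intro N
    induction N with
    | zero => simp
    | succ N ih =>
      rw [Finset.card_filter] at ih ⊢
      rw [show 2 * (N + 1) = 2 * N + 1 + 1 by ring, Finset.sum_range_succ, Finset.sum_range_succ,
        ih, tm_two, tm_two_one]
      cases tm N <;> cases c <;> simp
  rw [pow_succ, mul_comm]
  exact key _

end Pool.Agent.H96toe
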