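import Mathlib
import Pool.Agent.H96toe.TM

/-!
# The blocks and the Toeplitz sequence
-/

set_option autoImplicit false

namespace Pool.Agent.H96toe

/-- number of level `k` blocks in a level `k + 1` block -/
def NN (k : ℕ) : ℕ := 4 ^ (k + 3)

/-- length of level `k` blocks -/
def ll : ℕ → ℕ
  | 0 => 1
  | k + 1 => ll k * NN k

/-- exponent: `ll k = 4 ^ ee k` -/
def ee : ℕ → ℕ
  | 0 => 0
  | k + 1 => ee k + (k + 3)

lemma ll_eq (k : ℕ) : ll k = 4 ^ ee k := by
  induction k with
  | zero => rfl
  | succ k ih => rw [ll, ee, ih, NN, ← pow_add]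

lemma ll_pos (k : ℕ) : 0 < ll k := by rw [ll_eq]; positivity
lemma NN_pos (k : ℕ) : 0 < NN k := by unfold NN; positivity
lemma NN_ge (k : ℕ) : 64 ≤ NN k := by
  unfold NN
  calc 64 = 4 ^ 3 := by norm_num
    _ ≤ 4 ^ (k + 3) := Nat.pow_le_pow_right (by norm_num) (by omega)

lemma lt_ll (k : ℕ) : k < ll k := by
  induction k with
  | zero => simp [ll]
  | succ k ih =>
    rw [ll]
    have h1 := NN_ge k
    have h2 : ll k * 64 ≤ ll k * NN k := Nat.mul_le_mul_left _ h1
    omega

/-- the word of types of the level `k` blocks in a level `k + 1` block of type `c` -/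
def ww (k : ℕ) (c : Bool) (j : ℕ) : Bool :=
  if j = 0 ∨ j + 1 = NN k then false else xor c (tm j)

/-- the block of level `k` and type `c` -/
def Bl : ℕ → Bool → ℕ → Bool
  | 0, c, _ => c
  | k + 1, c, i => Bl k (ww k c (i / ll k)) (i % ll k)

lemma ww_zero (k : ℕ) (c : Bool) : ww k c 0 = false := by simp [ww]
lemma ww_last (k : ℕ) (c : Bool) : ww k c (NN k - 1) = false := by
  have := NN_pos k
  unfold ww
  rw [if_pos]
  right; omega

lemma Bl_succ (k : ℕ) (c : Bool) (j r : ℕ) (hr : r < ll k) :
    Bl (k + 1) c (ll k * j + r) = Bl k (ww k c j) r := by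
  rw [Bl]
  have h1 : (ll k * j + r) / ll k = j := by
    rw [Nat.mul_add_div (ll_pos k), Nat.div_eq_of_lt hr, add_zero]
  have h2 : (ll k * j + r) % ll k = r := by
    rw [Nat.mul_add_mod, Nat.mod_eq_of_lt hr]
  rw [h1, h2]

lemma Bl_first (k : ℕ) (c : Bool) (r : ℕ) (hr : r < ll k) :
    Bl (k + 1) c r = Bl k false r := by
  have := Bl_succ k c 0 r hr
  rwa [mul_zero, zero_add, ww_zero] at this

lemma Bl_last (k : ℕ) (c : Bool) (r : ℕ) (hr : r < ll k) :
    Bl (k + 1) c (ll (k + 1) - ll k + r) = Bl k false r := by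
  have h1 : ll (k + 1) - ll k + r = ll k * (NN k - 1) + r := by
    rw [ll]
    have := NN_pos k
    rw [Nat.mul_sub, mul_one]
  rw [h1, Bl_succ k c _ r hr, ww_last]

/-- the Toeplitz sequence -/
def xx (i : ℤ) : Bool := Bl i.natAbs false ((i % (ll i.natAbs : ℤ)).toNat)

lemma step_pos (k : ℕ) (i : ℤ) (h0 : 0 ≤ i) (h1 : i < ll k) :
    Bl (k + 1) false ((i % (ll (k + 1) : ℤ)).toNat) = Bl k false ((i % (ll k : ℤ)).toNat) := by
  have hk : (ll k : ℤ) ≤ ll (k + 1) := by
    rw [ll]; push_cast
    have := NN_pos k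
    have h2 := ll_pos k
    nlinarith
  rw [Int.emod_eq_of_lt h0 (by omega), Int.emod_eq_of_lt h0 h1]
  apply Bl_first
  omega

lemma step_neg (k : ℕ) (i : ℤ) (h0 : i < 0) (h1 : -(ll k : ℤ) ≤ i) :
    Bl (k + 1) false ((i % (ll (k + 1) : ℤ)).toNat) = Bl k false ((i % (ll k : ℤ)).toNat) := by
  have hk : (ll k : ℤ) ≤ ll (k + 1) := by
    rw [ll]; push_cast
    have := NN_pos k
    have h2 := ll_pos k
    nlinarith
  have e1 : i % (ll (k + 1) : ℤ) = i + ll (k + 1) := by
    rw [← Int.add_emod_right, Int.emod_eq_of_lt (by omega) (by omega)]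
  have e2 : i % (ll k : ℤ) = i + ll k := by
    rw [← Int.add_emod_right, Int.emod_eq_of_lt (by omega) (by omega)]
  rw [e1, e2]
  have h2 := Bl_last k false (i + ll k).toNat (by omega)
  rw [← h2]
  congr 1
  omega

lemma xx_eq (i : ℤ) (k : ℕ) (hk : i.natAbs ≤ k) :
    xx i = Bl k false ((i % (ll k : ℤ)).toNat) := by
  induction k, hk using Nat.le_induction with
  | base => rfl
  | succ k hk ih =>
    rw [ih]
    have h1 := lt_ll k
    rcases lt_or_ge i 0 with h | h
    · exact (step_neg k i h (by omega)).symm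
    · exact (step_pos k i h (by omega)).symm

lemma xx_eq' (i : ℤ) (k : ℕ) (h0 : -(ll k : ℤ) ≤ i) (h1 : i < ll k) :
    xx i = Bl k false ((i % (ll k : ℤ)).toNat) := by
  rw [xx_eq i (k + i.natAbs) (by omega)]
  have key : ∀ d : ℕ, Bl (k + d) false ((i % (ll (k + d) : ℤ)).toNat) =
      Bl k false ((i % (ll k : ℤ)).toNat) := by
    have mono : ∀ d : ℕ, (ll k : ℤ) ≤ ll (k + d) := by
      intro d
      induction d with
      | zero => simp
      | succ d ih =>
        have : ll (k + (d + 1)) = ll (k + d) * NN (k + d) := rfl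
        rw [this]; push_cast
        have h2 := NN_pos (k + d)
        have h3 := ll_pos (k + d)
        nlinarith
    intro d
    induction d with
    | zero => rfl
    | succ d ih =>
      rw [← ih]
      have := mono d
      rcases lt_or_ge i 0 with h | h
      · exact step_neg (k + d) i h (by omega)
      · exact step_pos (k + d) i h (by omega)
  exact key _

/-- `y` is a concatenation of blocks of level `k` with offset `a` -/
def Cat (k : ℕ) (a : ℤ) (y : ℤ → Bool) : Prop :=
  ∀ q : ℤ, ∃ c : Bool, ∀ r : ℕ, r < ll k → y (a + q * ll k + r) = Bl k c r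

/-- concatenations of blocks of level `k + 1` are concatenations of blocks of level `k` -/
lemma Cat_down {k : ℕ} {a : ℤ} {y : ℤ → Bool} (h : Cat (k + 1) a y) : Cat k a y := by
  intro q
  obtain ⟨c, hc⟩ := h (q / NN k)
  have hN : (0 : ℤ) < NN k := by exact_mod_cast NN_pos k
  refine ⟨ww k c (q % NN k).toNat, fun r hr => ?_⟩
  have h1 : 0 ≤ q % (NN k : ℤ) := Int.emod_nonneg _ hN.ne'
  have h2 : q % (NN k : ℤ) < NN k := Int.emod_lt_of_pos _ hN
  have h3 : (q % (NN k : ℤ)).toNat < NN k := by omega
  have h4 := hc (ll k * (q % (NN k : ℤ)).toNat + r) (by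
    rw [ll]
    calc ll k * (q % (NN k : ℤ)).toNat + r < ll k * (q % (NN k : ℤ)).toNat + ll k := by omega
      _ = ll k * ((q % (NN k : ℤ)).toNat + 1) := by ring
      _ ≤ ll k * NN k := Nat.mul_le_mul_left _ (by omega))
  rw [Bl_succ k c _ r hr] at h4
  rw [← h4]
  congr 1
  have h5 : ((q % (NN k : ℤ)).toNat : ℤ) = q % NN k := Int.toNat_of_nonneg h1
  have h6 := Int.mul_ediv_add_emod q (NN k)
  rw [ll]
  push_cast
  rw [h5]
  have h7 : a + q * (ll k : ℤ) + r = a + (NN k * (q / NN k) + q % NN k) * ll k + r := by rw [h6]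
  rw [h7]
  ring

lemma Cat_xx (k : ℕ) : Cat k 0 xx := by
  intro q
  -- choose a level `K ≥ k` such that the block is inside `[-ll K, ll K)`
  have key : ∀ d : ℕ, ∀ q : ℤ, -(ll (k + d) : ℤ) ≤ q * ll k → (q + 1) * ll k ≤ ll (k + d) →
      ∃ c : Bool, ∀ r : ℕ, r < ll k → xx (q * ll k + r) = Bl k c r := by
    intro d q h0 h1
    have hd : ∀ d : ℕ, ∀ q : ℤ, 0 ≤ q → (q + 1) * ll k ≤ ll (k + d) → ∀ c' : Bool,
        ∃ c : Bool, ∀ r : ℕ, r < ll k → Bl (k + d) c' (q * ll k + r).toNat = Bl k c r := by
      intro d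
      induction d with
      | zero =>
        intro q hq0 hq c'
        refine ⟨c', fun r hr => ?_⟩
        have h2 := ll_pos k
        have : q = 0 := by
          by_contra hne
          have : 1 ≤ q := by omega
          have h3 : (0 : ℤ) < ll k := by exact_mod_cast h2
          rw [add_zero] at hq
          nlinarith
        subst this
        simp
      | succ d ih =>
        intro q hq0 hq c'
        -- position inside the level `k + d` block
        obtain ⟨M, hM⟩ : ∃ M : ℕ, ll (k + d) = ll k * M := by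
          clear ih hq
          induction d with
          | zero => exact ⟨1, by simp⟩
          | succ d ih2 =>
            obtain ⟨M, hM⟩ := ih2
            refine ⟨M * NN (k + d), ?_⟩
            have : ll (k + (d + 1)) = ll (k + d) * NN (k + d) := rfl
            rw [this, hM]; ring
        have hkpos := ll_pos k
        have hM0 : 0 < M := by
          have := ll_pos (k + d)
          rw [hM] at this
          exact Nat.pos_of_mul_pos_left this |> fun h => by
            rcases Nat.eq_zero_or_pos M with h0 | h0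
            · subst h0; simp at this
            · exact h0
        have hMZ : (0 : ℤ) < M := by exact_mod_cast hM0
        set q1 := q / (M : ℤ) with hq1
        set q2 := q % (M : ℤ) with hq2
        have hq2n : 0 ≤ q2 := Int.emod_nonneg _ hMZ.ne'
        have hq2l : q2 < M := Int.emod_lt_of_pos _ hMZ
        have hq1n : 0 ≤ q1 := Int.ediv_nonneg hq0 hMZ.le
        have hdec : q = M * q1 + q2 := (Int.mul_ediv_add_emod q M).symm
        obtain ⟨c, hc⟩ := ih q2 hq2n (by
          rw [hM]; push_cast
          have : (0 : ℤ) < ll k := by exact_mod_cast hkpos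
          nlinarith) (ww (k + d) c' q1.toNat)
        refine ⟨c, fun r hr => ?_⟩
        rw [← hc r hr]
        have e1 : (q * (ll k : ℤ) + r).toNat = ll (k + d) * q1.toNat + (q2 * ll k + r).toNat := by
          have a1 : 0 ≤ q2 * (ll k : ℤ) + r := by positivity
          have a2 : q * (ll k : ℤ) + r = ll (k + d) * q1 + (q2 * ll k + r) := by
            rw [hM, hdec]; push_cast; ring
          zify
          rw [Int.toNat_of_nonneg hq1n, Int.toNat_of_nonneg a1,
            Int.toNat_of_nonneg (by rw [a2]; positivity), a2]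
        rw [e1]
        refine Bl_succ (k + d) c' q1.toNat _ ?_
        have a1 : 0 ≤ q2 * (ll k : ℤ) + r := by positivity
        have a3 : q2 * (ll k : ℤ) + r < ll (k + d) := by
          rw [hM]; push_cast
          have h5 : (0 : ℤ) < ll k := by exact_mod_cast hkpos
          have h6 : (r : ℤ) < ll k := by exact_mod_cast hr
          have h7 : q2 + 1 ≤ M := by omega
          nlinarith
        omega
    rcases lt_or_ge q 0 with hq | hq
    · -- negative
      have e0 : (0 : ℤ) < ll k := by exact_mod_cast ll_pos k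
      obtain ⟨M, hM⟩ : ∃ M : ℕ, ll (k + d) = ll k * M := by
        clear h0 h1 hd
        induction d with
        | zero => exact ⟨1, by simp⟩
        | succ d ih2 =>
          obtain ⟨M, hM⟩ := ih2
          refine ⟨M * NN (k + d), ?_⟩
          have : ll (k + (d + 1)) = ll (k + d) * NN (k + d) := rfl
          rw [this, hM]; ring
      have hq3 : 0 ≤ q + M := by
        rw [hM] at h0; push_cast at h0
        by_contra hneg
        push Not at hneg
        nlinarith
      obtain ⟨c, hc⟩ := hd d (q + M) hq3 (by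
        rw [hM]; push_cast; nlinarith) false
      refine ⟨c, fun r hr => ?_⟩
      have hr' : (r : ℤ) < ll k := by exact_mod_cast hr
      rw [← hc r hr, xx_eq' (q * ll k + r) (k + d) (by omega) (by
        have : (0 : ℤ) < ll (k + d) := by exact_mod_cast ll_pos (k + d)
        nlinarith)]
      congr 2
      rw [← Int.add_emod_right, Int.emod_eq_of_lt]
      · rw [hM]; push_cast; ring
      · nlinarith
      · nlinarith
    · obtain ⟨c, hc⟩ := hd d q hq h1 false
      refine ⟨c, fun r hr => ?_⟩
      have hr' : (r : ℤ) < ll k := by exact_mod_cast hr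
      have hk0 : (0 : ℤ) < ll k := by exact_mod_cast ll_pos k
      have hlt : q * ll k + r < ll (k + d) := by nlinarith
      have hnn : 0 ≤ q * (ll k : ℤ) + r := by positivity
      rw [← hc r hr, xx_eq' (q * ll k + r) (k + d) (by
        have : (0 : ℤ) < ll (k + d) := by exact_mod_cast ll_pos (k + d)
        omega) hlt, Int.emod_eq_of_lt hnn hlt]
  have hbig : ∀ d : ℕ, (ll k : ℤ) * (d + 1) ≤ ll (k + d) := by
    intro d
    induction d with
    | zero => simp
    | succ d ih =>
      have : ll (k + (d + 1)) = ll (k + d) * NN (k + d) := rfl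
      rw [this]; push_cast
      have h2 : (64 : ℤ) ≤ NN (k + d) := by exact_mod_cast NN_ge (k + d)
      have h3 : (0 : ℤ) < ll k := by exact_mod_cast ll_pos k
      have h4 : (0 : ℤ) < ll (k + d) := by exact_mod_cast ll_pos (k + d)
      nlinarith
  obtain ⟨c, hc⟩ := key (q.natAbs + 1) q (by
    have := hbig (q.natAbs + 1)
    have h3 : (0 : ℤ) < ll k := by exact_mod_cast ll_pos k
    have h4 : -|q| ≤ q := neg_abs_le q
    push_cast at this ⊢
    nlinarith [mul_le_mul_of_nonneg_right h4 h3.le]) (by
    have := hbig (q.natAbs + 1)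
    have h3 : (0 : ℤ) < ll k := by exact_mod_cast ll_pos k
    have h4 : q ≤ |q| := le_abs_self q
    push_cast at this ⊢
    nlinarith [mul_le_mul_of_nonneg_right h4 h3.le])
  refine ⟨c, fun r hr => ?_⟩
  rw [zero_add]
  exact hc r hr

/-- periodic positions -/
lemma xx_toeplitz (i : ℤ) : ∃ p : ℕ, 0 < p ∧ ∀ q : ℤ, xx (i + q * p) = xx i := by
  set k := i.natAbs with hk
  refine ⟨ll (k + 1), ll_pos _, fun q => ?_⟩
  have hkl := lt_ll k
  have hk1 : (ll k : ℤ) * 64 ≤ ll (k + 1) := by
    rw [ll]; push_cast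
    have h2 : (64 : ℤ) ≤ NN k := by exact_mod_cast NN_ge k
    have h3 : (0 : ℤ) < ll k := by exact_mod_cast ll_pos k
    nlinarith
  have key : ∀ q : ℤ, xx (i + q * ll (k + 1)) = Bl k false ((i % (ll k : ℤ)).toNat) := by
    intro q
    rcases lt_or_ge i 0 with h | h
    · obtain ⟨c, hc⟩ := Cat_xx (k + 1) (q - 1)
      have h1 := hc (ll (k + 1) - ll k + (i + ll k).toNat) (by omega)
      rw [Bl_last k c _ (by omega)] at h1
      rw [← Int.add_emod_right, Int.emod_eq_of_lt (by omega) (by omega), ← h1]
      congr 1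
      have h2 : ((ll (k + 1) - ll k + (i + ll k).toNat : ℕ) : ℤ) = ll (k + 1) + i := by omega
      rw [h2]
      ring
    · obtain ⟨c, hc⟩ := Cat_xx (k + 1) q
      have h1 := hc i.toNat (by omega)
      rw [Bl_first k c _ (by omega)] at h1
      rw [Int.emod_eq_of_lt h (by omega), ← h1]
      congr 1
      have h2 : (i.toNat : ℤ) = i := Int.toNat_of_nonneg h
      rw [h2]
      ring
  have := key 0
  rw [zero_mul, add_zero] at this
  rw [key q, this]

end Pool.Agent.H96toe
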