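import Mathlib
import Pool.Agent.H96toe.Bl

/-!
# Counting in the blocks
-/

set_option autoImplicit false

open Finset

namespace Pool.Agent.H96toe

lemma sum_blocks (a b : ℕ) (f : ℕ → ℝ) :
    ∑ i ∈ range (a * b), f i = ∑ j ∈ range b, ∑ r ∈ range a, f (a * j + r) := by
  induction b with
  | zero => simp
  | succ b ih => rw [Nat.mul_succ, sum_range_add, ih, sum_range_succ]

/-- `1` if the letters differ -/
def df (a b : Bool) : ℝ := if a = b then 0 else 1

lemma df_nonneg (a b : Bool) : 0 ≤ df a b := by unfold df; split_ifs <;> norm_num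
lemma df_le_one (a b : Bool) : df a b ≤ 1 := by unfold df; split_ifs <;> norm_num
lemma df_tri (a b c d : Bool) : df a b ≤ df c d + df a c + df b d := by
  cases a <;> cases b <;> cases c <;> cases d <;> simp [df]

/-- number of discrepancies of the block of level `k` and type `c` with the Thue-Morse block -/
noncomputable def dd (k : ℕ) (c : Bool) : ℝ := ∑ r ∈ range (ll k), df (Bl k c r) (xor c (tm r))

lemma tm_ll (k j r : ℕ) (hr : r < ll k) : tm (ll k * j + r) = xor (tm j) (tm r) := by
  have h1 : ll k = 2 ^ (2 * ee k) := by rw [ll_eq, pow_mul]; norm_num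
  rw [h1] at hr ⊢
  exact tm_block _ j r hr

lemma dd_bound (k : ℕ) : ∀ c, 24 * dd k c ≤ ll k * (1 - (1 / 4 : ℝ) ^ k) := by
  induction k with
  | zero =>
    intro c
    unfold dd
    simp [ll, Bl, df, tm_zero]
  | succ k ih =>
    intro c
    have hN := NN_ge k
    have hl : (0 : ℝ) < ll k := by exact_mod_cast ll_pos k
    set D : ℝ := ll k * (1 - (1 / 4 : ℝ) ^ k) / 24 with hD
    have hD0 : 0 ≤ D := by
      have : (1 / 4 : ℝ) ^ k ≤ 1 := pow_le_one₀ (by norm_num) (by norm_num)
      rw [hD]
      have : 0 ≤ 1 - (1 / 4 : ℝ) ^ k := by linarith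
      positivity
    have ih' : ∀ c, dd k c ≤ D := by
      intro c
      have := ih c
      rw [hD]
      linarith
    have h1 : dd (k + 1) c = ∑ j ∈ range (NN k), ∑ r ∈ range (ll k),
        df (Bl k (ww k c j) r) (xor (xor c (tm j)) (tm r)) := by
      unfold dd
      rw [ll, sum_blocks]
      refine sum_congr rfl fun j _ => sum_congr rfl fun r hr => ?_
      rw [mem_range] at hr
      rw [Bl_succ k c j r hr, tm_ll k j r hr, Bool.xor_assoc]
    have h2 : ∀ j ∈ range (NN k), ∑ r ∈ range (ll k),
        df (Bl k (ww k c j) r) (xor (xor c (tm j)) (tm r)) ≤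
        D + (if j = 0 then (ll k : ℝ) else 0) + (if j = NN k - 1 then (ll k : ℝ) else 0) := by
      intro j _
      have htriv : ∑ r ∈ range (ll k), df (Bl k (ww k c j) r) (xor (xor c (tm j)) (tm r)) ≤
          ll k := by
        calc _ ≤ ∑ r ∈ range (ll k), (1 : ℝ) := sum_le_sum fun r _ => df_le_one _ _
          _ = ll k := by simp
      by_cases hj0 : j = 0
      · rw [if_pos hj0]
        have : (0 : ℝ) ≤ (if j = NN k - 1 then (ll k : ℝ) else 0) := by split_ifs <;> linarith
        linarith
      · by_cases hj1 : j = NN k - 1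
        · rw [if_neg hj0, if_pos hj1]
          linarith
        · rw [if_neg hj0, if_neg hj1]
          have hw : ww k c j = xor c (tm j) := by
            unfold ww
            rw [if_neg]
            push Not
            exact ⟨hj0, by omega⟩
          rw [hw]
          have := ih' (xor c (tm j))
          unfold dd at this
          linarith
    have h3 : dd (k + 1) c ≤ NN k * D + ll k + ll k := by
      rw [h1]
      refine (sum_le_sum h2).trans ?_
      rw [sum_add_distrib, sum_add_distrib, sum_const, card_range, nsmul_eq_mul,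
        sum_ite_eq', sum_ite_eq']
      have m1 : 0 ∈ range (NN k) := mem_range.2 (by omega)
      have m2 : NN k - 1 ∈ range (NN k) := mem_range.2 (by omega)
      rw [if_pos m1, if_pos m2]
    have h4 : (NN k : ℝ) * (1 / 4 : ℝ) ^ k = 64 := by
      unfold NN
      push_cast
      rw [pow_add, mul_right_comm, ← mul_pow]
      norm_num
    have h5 : (ll (k + 1) : ℝ) = ll k * NN k := by rw [ll]; push_cast; ring
    rw [h5]
    rw [pow_succ]
    have h6 : 24 * (NN k * D) = ll k * NN k - ll k * 64 := by
      rw [hD]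
      have : 24 * (NN k * (ll k * (1 - (1 / 4 : ℝ) ^ k) / 24)) =
          ll k * NN k - ll k * (NN k * (1 / 4 : ℝ) ^ k) := by ring
      rw [this, h4]
    have h7 : (ll k : ℝ) * NN k * (1 - (1 / 4 : ℝ) ^ k * (1 / 4)) =
        ll k * NN k - ll k * (NN k * (1 / 4 : ℝ) ^ k) / 4 := by ring
    rw [h7, h4]
    nlinarith

lemma dd_le (k : ℕ) (c : Bool) : dd k c ≤ ll k / 24 := by
  have h1 := dd_bound k c
  have h2 : (0 : ℝ) ≤ (1 / 4 : ℝ) ^ k := by positivity
  have h3 : (0 : ℝ) < ll k := by exact_mod_cast ll_pos k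
  nlinarith

/-- different letters at distance `n` inside a block -/
lemma block_diff (k : ℕ) (c : Bool) (n : ℕ) (hn : 1 ≤ n) :
    (ll k : ℝ) / 4 - 3 * n ≤ ∑ r ∈ range (ll k - n), df (Bl k c r) (Bl k c (r + n)) := by
  rcases lt_or_ge (ll k) n with hlt | hge
  · have : ll k - n = 0 := by omega
    rw [this]
    simp only [range_zero, sum_empty]
    have : (ll k : ℝ) < n := by exact_mod_cast hlt
    have : (0 : ℝ) ≤ n := by positivity
    linarith
  · have hT : ((ll k : ℝ) - n) / 3 ≤ ∑ i ∈ range (ll k), df (tm i) (tm (i + n)) := by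
      have h1 : ll k = 2 ^ (2 * ee k) := by rw [ll_eq, pow_mul]; norm_num
      have h2 := diff_count (2 * ee k) n hn
      rw [← h1] at h2
      have h3 : ∑ i ∈ range (ll k), df (tm i) (tm (i + n)) =
          (((range (ll k)).filter fun i => tm i ≠ tm (i + n)).card : ℝ) := by
        rw [card_filter]
        push_cast
        refine sum_congr rfl fun i _ => ?_
        unfold df
        by_cases h : tm i = tm (i + n) <;> simp [h]
      rw [h3]
      have h4 : ((2 : ℤ) ^ (2 * ee k)) = (ll k : ℤ) := by rw [h1]; push_cast; rfl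
      rw [h4] at h2
      have h5 : ((ll k : ℝ) - n) ≤ 3 *
          (((range (ll k)).filter fun i => tm i ≠ tm (i + n)).card : ℝ) := by exact_mod_cast h2
      linarith
    have hT2 : ∑ i ∈ range (ll k), df (tm i) (tm (i + n)) ≤
        ∑ i ∈ range (ll k - n), df (tm i) (tm (i + n)) + n := by
      obtain ⟨m, hm⟩ : ∃ m, ll k = m + n := ⟨ll k - n, by omega⟩
      rw [hm, Nat.add_sub_cancel, sum_range_add]
      have : ∑ i ∈ range n, df (tm (m + i)) (tm (m + i + n)) ≤ n := by
        calc _ ≤ ∑ i ∈ range n, (1 : ℝ) := sum_le_sum fun r _ => df_le_one _ _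
          _ = n := by simp
      linarith
    have hsub : ∑ r ∈ range (ll k - n), df (tm r) (tm (r + n)) ≤
        ∑ r ∈ range (ll k - n), df (Bl k c r) (Bl k c (r + n)) + dd k c + dd k c := by
      have e1 : ∀ r, df (tm r) (tm (r + n)) ≤ df (Bl k c r) (Bl k c (r + n)) +
          df (Bl k c r) (xor c (tm r)) + df (Bl k c (r + n)) (xor c (tm (r + n))) := by
        intro r
        cases Bl k c r <;> cases Bl k c (r + n) <;> cases tm r <;> cases tm (r + n) <;>
          cases c <;> simp [df]
      have e2 : ∑ r ∈ range (ll k - n), df (Bl k c r) (xor c (tm r)) ≤ dd k c := by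
        unfold dd
        exact sum_le_sum_of_subset_of_nonneg (range_subset_range.2 (by omega))
          fun _ _ _ => df_nonneg _ _
      have e3 : ∑ r ∈ range (ll k - n), df (Bl k c (r + n)) (xor c (tm (r + n))) ≤ dd k c := by
        unfold dd
        obtain ⟨m, hm⟩ : ∃ m, ll k = n + m := ⟨ll k - n, by omega⟩
        have hm' : ll k - n = m := by omega
        rw [hm']
        have : ∑ r ∈ range (ll k), df (Bl k c r) (xor c (tm r)) =
            ∑ r ∈ range n, df (Bl k c r) (xor c (tm r)) +
            ∑ r ∈ range m, df (Bl k c (n + r)) (xor c (tm (n + r))) := by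
          rw [← sum_range_add, ← hm]
        rw [this]
        have h0 : 0 ≤ ∑ r ∈ range n, df (Bl k c r) (xor c (tm r)) :=
          sum_nonneg fun _ _ => df_nonneg _ _
        have h1 : ∑ r ∈ range m, df (Bl k c (r + n)) (xor c (tm (r + n))) =
            ∑ r ∈ range m, df (Bl k c (n + r)) (xor c (tm (n + r))) :=
          sum_congr rfl fun r _ => by rw [add_comm r n]
        linarith
      calc _ ≤ ∑ r ∈ range (ll k - n), (df (Bl k c r) (Bl k c (r + n)) +
          df (Bl k c r) (xor c (tm r)) + df (Bl k c (r + n)) (xor c (tm (r + n)))) :=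
            sum_le_sum fun r _ => e1 r
        _ ≤ _ := by
            rw [sum_add_distrib, sum_add_distrib]
            linarith
    have h9 := dd_le k c
    have hn0 : (0 : ℝ) ≤ n := by positivity
    have hl0 : (0 : ℝ) < ll k := by exact_mod_cast ll_pos k
    linarith

/-- lower bound for the sum over the pairs of equal neighbours -/
lemma sum_pairs (k : ℕ) (c : Bool) (Φ : Bool → ℝ) :
    ∑ i ∈ range (4 ^ (k + 2)), Φ (ww k c (4 * i + 1)) =
      (4 ^ (k + 2) / 2 : ℝ) * (Φ false + Φ true) := by
  have h1 : ∀ i ∈ range (4 ^ (k + 2)), Φ (ww k c (4 * i + 1)) = Φ (!(xor c (tm i))) := by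
    intro i hi
    rw [mem_range] at hi
    have : ww k c (4 * i + 1) = !(xor c (tm i)) := by
      unfold ww
      have hN : NN k = 4 * 4 ^ (k + 2) := by unfold NN; rw [show k + 3 = (k + 2) + 1 by ring, pow_succ]; ring
      rw [if_neg (by omega)]
      rw [show 4 * i + 1 = 2 * (2 * i) + 1 by ring, tm_two_one, tm_two]
      cases c <;> cases tm i <;> rfl
    rw [this]
  rw [sum_congr rfl h1]
  have h2 : ∀ b : Bool, (((range (4 ^ (k + 2))).filter fun i => tm i = b).card : ℝ) =
      4 ^ (k + 2) / 2 := by
    intro b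
    have h3 : 4 ^ (k + 2) = 2 ^ (2 * k + 3 + 1) := by
      rw [show 2 * k + 3 + 1 = 2 * (k + 2) by ring, pow_mul]
      norm_num
    rw [h3, balance]
    have h4 : (4 : ℝ) ^ (k + 2) = 2 ^ (2 * k + 3) * 2 := by
      rw [← pow_succ, show 2 * k + 3 + 1 = 2 * (k + 2) by ring, pow_mul]
      norm_num
    rw [h4]
    push_cast
    ring
  have h5 : ∀ i, Φ (!(xor c (tm i))) =
      (if tm i = false then Φ (!c) else 0) + (if tm i = true then Φ c else 0) := by
    intro i
    cases c <;> cases tm i <;> simp
  simp_rw [h5]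
  rw [sum_add_distrib, ← sum_filter, ← sum_filter, sum_const, sum_const, nsmul_eq_mul,
    nsmul_eq_mul, h2, h2]
  cases c <;> simp <;> ring

lemma sum_all (k : ℕ) (c : Bool) (Φ : Bool → ℝ) (h0 : ∀ t, 0 ≤ Φ t) :
    ∑ j ∈ range (NN k), Φ (ww k c j) ≤ (NN k / 2 + 2 : ℝ) * (Φ false + Φ true) := by
  have hN := NN_ge k
  have h1 : ∀ j ∈ range (NN k), Φ (ww k c j) ≤ Φ (xor c (tm j)) +
      ((if j = 0 then Φ false else 0) + (if j = NN k - 1 then Φ false else 0)) := by
    intro j _
    have n1 : 0 ≤ (if j = 0 then Φ false else 0) := by split_ifs; exact h0 _; exact le_rfl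
    have n2 : 0 ≤ (if j = NN k - 1 then Φ false else 0) := by
      split_ifs; exact h0 _; exact le_rfl
    have n3 := h0 (xor c (tm j))
    by_cases hj : j = 0 ∨ j + 1 = NN k
    · have : ww k c j = false := by unfold ww; rw [if_pos hj]
      rw [this]
      rcases hj with h | h
      · rw [if_pos h]; linarith
      · rw [if_pos (show j = NN k - 1 by omega)]; linarith
    · have : ww k c j = xor c (tm j) := by unfold ww; rw [if_neg hj]
      rw [this]; linarith
  refine (sum_le_sum h1).trans ?_
  rw [sum_add_distrib, sum_add_distrib, sum_ite_eq', sum_ite_eq',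
    if_pos (mem_range.2 (by omega)), if_pos (mem_range.2 (by omega))]
  have h2 : ∀ b : Bool, (((range (NN k)).filter fun i => tm i = b).card : ℝ) = NN k / 2 := by
    intro b
    have h3 : NN k = 2 ^ (2 * k + 5 + 1) := by
      unfold NN
      rw [show 2 * k + 5 + 1 = 2 * (k + 3) by ring, pow_mul]
      norm_num
    rw [h3, balance]
    push_cast
    rw [pow_succ]
    ring
  have h5 : ∀ i, Φ (xor c (tm i)) =
      (if tm i = false then Φ c else 0) + (if tm i = true then Φ (!c) else 0) := by
    intro i
    cases c <;> cases tm i <;> simp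
  simp_rw [h5]
  rw [sum_add_distrib, ← sum_filter, ← sum_filter, sum_const, sum_const, nsmul_eq_mul,
    nsmul_eq_mul, h2, h2]
  have a1 := h0 false
  have a2 := h0 true
  cases c <;> simp <;> nlinarith

end Pool.Agent.H96toe
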