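import Mathlib
import Pool.Agent.W765.KB

/-!
# Ergodic measures on closed invariant sets of two-sided binary sequences

The existence proof maximises a strictly convex continuous functional on the compact set of
invariant probability measures (as in `Pool.Agent.H98R3.BA`).
-/

set_option autoImplicit false

open MeasureTheory Filter Topology Set TopologicalSpace
open scoped ENNReal NNReal

namespace Pool.Agent.H96toe

abbrev X := ℤ → Bool
abbrev PM := ProbabilityMeasure X

instance countable_clopens : Countable (Clopens X) :=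
  Clopens.countable_iff_secondCountable.2 inferInstance

noncomputable def ev (μ : PM) (K : Set X) : ℝ := (μ : Measure X).real K

theorem tendsto_ev {ι : Type*} {L : Filter ι} {μs : ι → PM} {μ : PM} (h : Tendsto μs L (𝓝 μ))
    {K : Set X} (hK : IsClopen K) : Tendsto (fun i => ev (μs i) K) L (𝓝 (ev μ K)) := by
  have := ProbabilityMeasure.tendsto_measure_of_isClopen_of_tendsto h hK
  exact (NNReal.tendsto_coe.2 this)

theorem continuous_ev {K : Set X} (hK : IsClopen K) : Continuous fun μ : PM => ev μ K :=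
  continuous_iff_continuousAt.2 fun _ => tendsto_ev tendsto_id hK

theorem ev_nonneg (μ : PM) (K : Set X) : 0 ≤ ev μ K := measureReal_nonneg

theorem ev_le_one (μ : PM) (K : Set X) : ev μ K ≤ 1 := measureReal_le_one

theorem ext_clopen {μ ν : Measure X} [IsProbabilityMeasure μ] [IsProbabilityMeasure ν]
    (h : ∀ K : Set X, IsClopen K → μ K = ν K) : μ = ν := by
  refine ext_of_generate_finite {s : Set X | IsClopen s} ?_ ?_ (fun s hs => h s hs) (by simp)
  · rw [BorelSpace.measurable_eq (α := X)]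
    exact isTopologicalBasis_isClopen.borel_eq_generateFrom
  · intro s hs t ht _
    exact IsClopen.inter hs ht

theorem ext_ev {μ ν : PM} (h : ∀ K : Set X, IsClopen K → ev μ K = ev ν K) : μ = ν := by
  apply Subtype.ext
  haveI : IsProbabilityMeasure (Subtype.val ν) := ν.2
  haveI : IsProbabilityMeasure (Subtype.val μ) := μ.2
  apply ext_clopen
  intro K hK
  have := h K hK
  unfold ev Measure.real at this
  exact (ENNReal.toReal_eq_toReal_iff' (measure_ne_top _ _) (measure_ne_top _ _)).1 this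

theorem isClosed_inv (f : C(X, X)) : IsClosed {μ : PM | (μ : Measure X).map ⇑f = (μ : Measure X)} := by
  have h1 : Continuous fun μ : PM => μ.map (f := ⇑f) f.continuous.aemeasurable :=
    ProbabilityMeasure.continuous_map f.continuous
  have h2 : {μ : PM | (μ : Measure X).map ⇑f = (μ : Measure X)} =
      {μ : PM | μ.map (f := ⇑f) f.continuous.aemeasurable = μ} := by
    ext μ
    simp only [mem_setOf_eq]
    constructor
    · intro h
      exact Subtype.ext h
    · intro h
      exact congrArg Subtype.val h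
  rw [h2]
  exact isClosed_eq h1 continuous_id

/-- the strictly convex functional -/
noncomputable def FF (μ : PM) : ℝ :=
  letI := Encodable.ofCountable (Clopens X)
  ∑' K : Clopens X, (1 / 2 : ℝ) ^ Encodable.encode K * ev μ K ^ 2

theorem summ (μ : PM) (ν : PM) :
    letI := Encodable.ofCountable (Clopens X)
    Summable fun K : Clopens X => (1 / 2 : ℝ) ^ Encodable.encode K * (ev μ K * ev ν K) := by
  letI := Encodable.ofCountable (Clopens X)
  refine Summable.of_nonneg_of_le (fun K => mul_nonneg (by positivity)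
    (mul_nonneg (ev_nonneg _ _) (ev_nonneg _ _))) (fun K => ?_)
    (summable_geometric_two_encode (ι := Clopens X))
  have h1 : ev μ K * ev ν K ≤ 1 := mul_le_one₀ (ev_le_one _ _) (ev_nonneg _ _) (ev_le_one _ _)
  have h2 : (0 : ℝ) ≤ (1 / 2 : ℝ) ^ Encodable.encode K := by positivity
  calc _ ≤ (1 / 2 : ℝ) ^ Encodable.encode K * 1 := mul_le_mul_of_nonneg_left h1 h2
    _ = _ := mul_one _

theorem continuous_FF : Continuous FF := by
  letI := Encodable.ofCountable (Clopens X)
  unfold FF
  refine continuous_tsum (u := fun K : Clopens X => (1 / 2 : ℝ) ^ Encodable.encode K)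
    (fun K => ?_) (summable_geometric_two_encode (ι := Clopens X)) (fun K μ => ?_)
  · exact continuous_const.mul ((continuous_ev K.isClopen).pow 2)
  · rw [Real.norm_eq_abs, abs_of_nonneg (mul_nonneg (by positivity) (sq_nonneg _))]
    have h1 : ev μ K ^ 2 ≤ 1 := pow_le_one₀ (ev_nonneg _ _) (ev_le_one _ _)
    have h2 : (0 : ℝ) ≤ (1 / 2 : ℝ) ^ Encodable.encode K := by positivity
    calc _ ≤ (1 / 2 : ℝ) ^ Encodable.encode K * 1 := mul_le_mul_of_nonneg_left h1 h2
      _ = _ := mul_one _

/-- strict convexity -/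
theorem FF_convex {μ μ₁ μ₂ : PM} {t : ℝ} (ht0 : 0 < t) (ht1 : t < 1)
    (hμ : ∀ K : Set X, IsClopen K → ev μ K = t * ev μ₁ K + (1 - t) * ev μ₂ K)
    (h1 : FF μ₁ ≤ FF μ) (h2 : FF μ₂ ≤ FF μ) : μ₁ = μ₂ := by
  letI := Encodable.ofCountable (Clopens X)
  have s1 := summ μ₁ μ₁
  have s2 := summ μ₂ μ₂
  have s3 := summ μ μ
  have key : ∀ K : Clopens X, (1 / 2 : ℝ) ^ Encodable.encode K * (t * (1 - t) * (ev μ₁ K - ev μ₂ K) ^ 2)
      = t * ((1 / 2 : ℝ) ^ Encodable.encode K * (ev μ₁ K * ev μ₁ K)) +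
        (1 - t) * ((1 / 2 : ℝ) ^ Encodable.encode K * (ev μ₂ K * ev μ₂ K)) -
        (1 / 2 : ℝ) ^ Encodable.encode K * (ev μ K * ev μ K) := by
    intro K
    rw [hμ K K.isClopen]
    ring
  have s4 : Summable fun K : Clopens X =>
      (1 / 2 : ℝ) ^ Encodable.encode K * (t * (1 - t) * (ev μ₁ K - ev μ₂ K) ^ 2) := by
    simp_rw [key]
    exact ((s1.mul_left t).add (s2.mul_left (1 - t))).sub s3
  have e1 : FF μ₁ = ∑' K : Clopens X, (1 / 2 : ℝ) ^ Encodable.encode K * (ev μ₁ K * ev μ₁ K) := by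
    unfold FF; simp_rw [sq]
  have e2 : FF μ₂ = ∑' K : Clopens X, (1 / 2 : ℝ) ^ Encodable.encode K * (ev μ₂ K * ev μ₂ K) := by
    unfold FF; simp_rw [sq]
  have e3 : FF μ = ∑' K : Clopens X, (1 / 2 : ℝ) ^ Encodable.encode K * (ev μ K * ev μ K) := by
    unfold FF; simp_rw [sq]
  have hsum : ∑' K : Clopens X,
      (1 / 2 : ℝ) ^ Encodable.encode K * (t * (1 - t) * (ev μ₁ K - ev μ₂ K) ^ 2) =
      t * FF μ₁ + (1 - t) * FF μ₂ - FF μ := by
    simp_rw [key]
    rw [((s1.mul_left t).add (s2.mul_left (1 - t))).tsum_sub s3,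
      (s1.mul_left t).tsum_add (s2.mul_left (1 - t)), tsum_mul_left, tsum_mul_left, e1, e2, e3]
  have hle : ∑' K : Clopens X,
      (1 / 2 : ℝ) ^ Encodable.encode K * (t * (1 - t) * (ev μ₁ K - ev μ₂ K) ^ 2) ≤ 0 := by
    rw [hsum]
    nlinarith
  have hnn : ∀ K : Clopens X,
      0 ≤ (1 / 2 : ℝ) ^ Encodable.encode K * (t * (1 - t) * (ev μ₁ K - ev μ₂ K) ^ 2) := by
    intro K
    have : 0 < 1 - t := by linarith
    positivity
  apply ext_ev
  intro K hK
  by_contra hne
  have hpos : 0 < (1 / 2 : ℝ) ^ Encodable.encode (⟨K, hK⟩ : Clopens X) *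
      (t * (1 - t) * (ev μ₁ K - ev μ₂ K) ^ 2) := by
    have h3 : 0 < 1 - t := by linarith
    have h4 : 0 < (ev μ₁ K - ev μ₂ K) ^ 2 := by
      have : ev μ₁ K - ev μ₂ K ≠ 0 := sub_ne_zero.2 hne
      positivity
    positivity
  have := s4.tsum_pos hnn (⟨K, hK⟩ : Clopens X) hpos
  linarith

/-- invariant probability measures carried by `F` -/
def MM (f : C(X, X)) (F : Set X) : Set PM :=
  {μ | (μ : Measure X).map ⇑f = (μ : Measure X) ∧ (μ : Measure X) Fᶜ = 0}

theorem null_iff {F : Set X} (hF : IsClosed F) (μ : PM) :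
    (μ : Measure X) Fᶜ = 0 ↔ ∀ K : Clopens X, (K : Set X) ⊆ Fᶜ → ev μ K = 0 := by
  constructor
  · intro h K hK
    unfold ev Measure.real
    rw [measure_mono_null hK h]
    rfl
  · intro h
    have h1 : Fᶜ = ⋃ K : {K : Clopens X // (K : Set X) ⊆ Fᶜ}, (K.1 : Set X) := by
      ext y
      simp only [mem_iUnion]
      constructor
      · intro hy
        obtain ⟨K, hK, hyK, hKF⟩ := isTopologicalBasis_isClopen.exists_subset_of_mem_open hy
          hF.isOpen_compl
        exact ⟨⟨⟨K, hK⟩, hKF⟩, hyK⟩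
      · rintro ⟨K, hyK⟩
        exact K.2 hyK
    rw [h1, measure_iUnion_null_iff]
    intro K
    have h2 := h K.1 K.2
    unfold ev Measure.real at h2
    rcases (ENNReal.toReal_eq_zero_iff _).1 h2 with h | h
    · exact h
    · exact absurd h (measure_ne_top _ _)

theorem isClosed_MM (f : C(X, X)) {F : Set X} (hF : IsClosed F) : IsClosed (MM f F) := by
  have h2 : IsClosed {μ : PM | (μ : Measure X) Fᶜ = 0} := by
    have : {μ : PM | (μ : Measure X) Fᶜ = 0} =
        ⋂ K : Clopens X, ⋂ (_ : (K : Set X) ⊆ Fᶜ), {μ : PM | ev μ K = 0} := by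
      ext μ
      simp only [mem_setOf_eq, mem_iInter]
      exact null_iff hF μ
    rw [this]
    exact isClosed_iInter fun K => isClosed_iInter fun _ =>
      isClosed_eq (continuous_ev K.isClopen) continuous_const
  exact (isClosed_inv f).inter h2

theorem cond_mem {f : C(X, X)} {F : Set X} {μ : PM} (hμ : μ ∈ MM f F) {s : Set X}
    (hs : MeasurableSet s) (hinv : ⇑f ⁻¹' s = s) (hs0 : (μ : Measure X) s ≠ 0) :
    ∃ ν ∈ MM f F, (ν : Measure X) = ProbabilityTheory.cond (μ : Measure X) s := by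
  haveI := ProbabilityTheory.cond_isProbabilityMeasure (μ := (μ : Measure X)) hs0
  refine ⟨⟨ProbabilityTheory.cond (μ : Measure X) s, inferInstance⟩, ⟨?_, ?_⟩, rfl⟩
  · ext A hA
    have hmeas : Measurable ⇑f := f.continuous.measurable
    change (Measure.map _ (ProbabilityTheory.cond (μ : Measure X) s)) A =
      (ProbabilityTheory.cond (μ : Measure X) s) A
    rw [Measure.map_apply hmeas hA, ProbabilityTheory.cond_apply hs, ProbabilityTheory.cond_apply hs]
    congr 1
    have h1 : s ∩ ⇑f ⁻¹' A = ⇑f ⁻¹' (s ∩ A) := by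
      rw [preimage_inter, hinv]
    rw [h1, ← Measure.map_apply hmeas (hs.inter hA), hμ.1]
  · change (ProbabilityTheory.cond (μ : Measure X) s) Fᶜ = 0
    rw [ProbabilityTheory.cond_apply hs]
    rw [measure_mono_null inter_subset_right hμ.2, mul_zero]

theorem exists_ergodic_of_nonempty (f : C(X, X)) {F : Set X} (hF : IsClosed F)
    (hne : (MM f F).Nonempty) :
    ∃ μ : Measure X, IsProbabilityMeasure μ ∧ Ergodic (⇑f) μ ∧ μ Fᶜ = 0 := by
  obtain ⟨μ, hμ, hmax⟩ := (isClosed_MM f hF).isCompact.exists_isMaxOn hne continuous_FF.continuousOn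
  refine ⟨μ, inferInstance, ⟨⟨f.continuous.measurable, hμ.1⟩, ⟨?_⟩⟩, hμ.2⟩
  intro s hs hinv
  by_contra hcon
  obtain ⟨hs0, hc0⟩ : (μ : Measure X) s ≠ 0 ∧ (μ : Measure X) sᶜ ≠ 0 := by
    simpa [eventuallyConst_set, ae_iff, and_comm] using! hcon
  have hs1 : (μ : Measure X) s ≠ 1 := fun h => hc0 ((prob_compl_eq_zero_iff hs).2 h)
  obtain ⟨μ₁, h1, e1⟩ := cond_mem hμ hs hinv hs0
  obtain ⟨μ₂, h2, e2⟩ := cond_mem hμ hs.compl (by rw [preimage_compl, hinv]) hc0
  have hconv : ∀ K : Set X, IsClopen K →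
      ev μ K = (μ : Measure X).real s * ev μ₁ K + (1 - (μ : Measure X).real s) * ev μ₂ K := by
    intro K hK
    unfold ev
    rw [e1, e2]
    have r1 : (μ : Measure X).real s * (ProbabilityTheory.cond (μ : Measure X) s).real K =
        (μ : Measure X).real (s ∩ K) := by
      unfold Measure.real
      rw [ProbabilityTheory.cond_apply hs, ENNReal.toReal_mul, ENNReal.toReal_inv, ← mul_assoc,
        mul_inv_cancel₀ (ENNReal.toReal_ne_zero.2 ⟨hs0, measure_ne_top _ _⟩), one_mul]
    have r2 : (1 - (μ : Measure X).real s) * (ProbabilityTheory.cond (μ : Measure X) sᶜ).real K =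
        (μ : Measure X).real (sᶜ ∩ K) := by
      rw [← probReal_compl_eq_one_sub hs]
      unfold Measure.real
      rw [ProbabilityTheory.cond_apply hs.compl, ENNReal.toReal_mul, ENNReal.toReal_inv, ← mul_assoc,
        mul_inv_cancel₀ (ENNReal.toReal_ne_zero.2 ⟨hc0, measure_ne_top _ _⟩), one_mul]
    rw [r1, r2]
    have := measureReal_inter_add_diff (μ := (μ : Measure X)) (s := K) hs
    rw [← this, inter_comm, diff_eq, inter_comm K sᶜ]
  have ht0 : 0 < (μ : Measure X).real s := ENNReal.toReal_pos hs0 (measure_ne_top _ _)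
  have ht1 : (μ : Measure X).real s < 1 := by
    have h3 : 0 < (μ : Measure X).real sᶜ := ENNReal.toReal_pos hc0 (measure_ne_top _ _)
    rw [probReal_compl_eq_one_sub hs] at h3
    linarith
  have heq := FF_convex ht0 ht1 hconv (hmax h1) (hmax h2)
  have h5 : (μ₁ : Measure X) s = 1 := by
    rw [e1, ProbabilityTheory.cond_apply hs, inter_self]
    exact ENNReal.inv_mul_cancel hs0 (measure_ne_top _ _)
  have h6 : (μ₂ : Measure X) s = 0 := by
    rw [e2, ProbabilityTheory.cond_apply hs.compl]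
    simp
  rw [heq, h6] at h5
  exact zero_ne_one h5

/-- Every nonempty closed set which contains a forward orbit carries an ergodic measure. -/
theorem exists_ergodic (f : C(X, X)) {F : Set X} (hF : IsClosed F) (x : X)
    (hx : ∀ i, (⇑f)^[i] x ∈ F) :
    ∃ μ : Measure X, IsProbabilityMeasure μ ∧ Ergodic (⇑f) μ ∧ μ Fᶜ = 0 := by
  apply exists_ergodic_of_nonempty f hF
  obtain ⟨P, hP, hinv, hc⟩ := Pool.Agent.W765.KB.kb f.continuous x (fun _ => 0) (fun L => L + 1)
    (tendsto_add_atTop_nat 1) (fun L => Nat.succ_pos L)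
  refine ⟨⟨P, hP⟩, hinv.map_eq, ?_⟩
  have h1 := hc Fᶜ hF.isOpen_compl 0 (fun L => by
    rw [Pool.Agent.W765.KB.emp_eq_zero hF.isOpen_compl.measurableSet
      (fun i => fun h => h (hx _))])
  exact le_antisymm h1 (by simp)

end Pool.Agent.H96toe
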