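import Mathlib
import Pool.Agent.H96toe.Count
import Pool.Agent.H96toe.Erg

/-!
# Invariant measures of the Toeplitz system
-/

set_option autoImplicit false

open MeasureTheory Finset Filter Topology

namespace Pool.Agent.H96toe

/-- the left shift -/
def sh (y : ℤ → Bool) : ℤ → Bool := fun i => y (i + 1)

lemma sh_iter (n : ℕ) : ∀ (y : ℤ → Bool) (i : ℤ), sh^[n] y i = y (i + n) := by
  induction n with
  | zero => intro y i; simp
  | succ n ih =>
    intro y i
    rw [Function.iterate_succ_apply', sh, ih]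
    congr 1
    push_cast
    ring

lemma continuous_sh : Continuous sh := continuous_pi fun i => continuous_apply (i + 1)
lemma measurable_sh : Measurable sh := continuous_sh.measurable

/-- concatenations of blocks of level `k` -/
def YY (k : ℕ) : Set (ℤ → Bool) := {y | ∃ a : ℤ, Cat k a y}

lemma Cat_norm {k : ℕ} {a : ℤ} {y : ℤ → Bool} (h : Cat k a y) :
    ∃ a' : ℕ, a' < ll k ∧ Cat k a' y := by
  have hl : (0 : ℤ) < ll k := by exact_mod_cast ll_pos k
  have h1 : 0 ≤ a % (ll k : ℤ) := Int.emod_nonneg _ hl.ne'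
  have h2 : a % (ll k : ℤ) < ll k := Int.emod_lt_of_pos _ hl
  refine ⟨(a % (ll k : ℤ)).toNat, by omega, fun q => ?_⟩
  obtain ⟨c, hc⟩ := h (q - a / ll k)
  refine ⟨c, fun r hr => ?_⟩
  rw [← hc r hr]
  congr 1
  rw [Int.toNat_of_nonneg h1]
  have h3 := Int.mul_ediv_add_emod a (ll k)
  have : a + (q - a / ↑(ll k)) * ↑(ll k) = a - ll k * (a / ll k) + q * ll k := by ring
  rw [this]
  have h4 : a % (ll k : ℤ) = a - ll k * (a / ll k) := by linarith
  rw [h4]

lemma Cat_shift {k : ℕ} {a : ℤ} {y : ℤ → Bool} (h : Cat k a y) (m : ℤ) :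
    Cat k (a - m) (fun i => y (i + m)) := by
  intro q
  obtain ⟨c, hc⟩ := h q
  refine ⟨c, fun r hr => ?_⟩
  rw [← hc r hr]
  change y _ = y _
  congr 1
  ring

lemma isClosed_YY (k : ℕ) : IsClosed (YY k) := by
  have h1 : YY k = ⋃ a ∈ (Finset.range (ll k) : Set ℕ), {y | Cat k (a : ℤ) y} := by
    ext y
    simp only [Set.mem_iUnion]
    constructor
    · rintro ⟨a, ha⟩
      obtain ⟨a', h1, h2⟩ := Cat_norm ha
      exact ⟨a', by simpa using h1, h2⟩
    · rintro ⟨a, _, ha⟩
      exact ⟨a, ha⟩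
  rw [h1]
  refine (Finset.finite_toSet _).isClosed_biUnion fun a _ => ?_
  have h2 : {y | Cat k (a : ℤ) y} = ⋂ q : ℤ, ⋃ c : Bool, ⋂ r : ℕ, ⋂ (_ : r < ll k),
      {y : ℤ → Bool | y (a + q * ll k + r) = Bl k c r} := by
    ext y
    simp only [Set.mem_iInter, Set.mem_iUnion]
    rfl
  rw [h2]
  refine isClosed_iInter fun q => isClosed_iUnion_of_finite fun c =>
    isClosed_iInter fun r => isClosed_iInter fun _ => ?_
  exact isClosed_eq (continuous_apply _) continuous_const

/-- the two-sided orbit closure -/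
def OC (x : ℤ → Bool) : Set (ℤ → Bool) := closure {y | ∃ m : ℤ, ∀ i, y i = x (i + m)}

lemma OC_subset (k : ℕ) : OC xx ⊆ YY k := by
  refine closure_minimal ?_ (isClosed_YY k)
  rintro y ⟨m, hm⟩
  refine ⟨0 - m, ?_⟩
  have : y = fun i => xx (i + m) := funext hm
  rw [this]
  exact Cat_shift (Cat_xx k) m

theorem avg {μ : Measure (ℤ → Bool)} [IsProbabilityMeasure μ] (hμ : MeasurePreserving sh μ μ)
    (F : (ℤ → Bool) → ℝ) (hF : Measurable F) (hb : ∀ y, |F y| ≤ 1) (l : ℕ) (b : ℝ)
    {Y : Set (ℤ → Bool)} (hY : ∀ᵐ y ∂μ, y ∈ Y)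
    (h : ∀ y ∈ Y, ∃ a : ℕ, a < l ∧ ∀ q : ℕ, b ≤ ∑ i ∈ range l, F (sh^[a + l * q + i] y)) :
    b ≤ l * ∫ y, F y ∂μ := by
  have hint : ∀ i, Integrable (fun y => F (sh^[i] y)) μ := by
    intro i
    refine Integrable.of_bound (C := 1)
      (hF.comp (measurable_sh.iterate i)).aestronglyMeasurable (ae_of_all _ fun y => ?_)
    rw [Real.norm_eq_abs]
    exact hb _
  have hinv : ∀ i, ∫ y, F (sh^[i] y) ∂μ = ∫ y, F y ∂μ := by
    intro i
    have h1 := hμ.iterate i
    rw [← h1.map_eq] 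
    rw [integral_map h1.measurable.aemeasurable hF.aestronglyMeasurable]
    rw [h1.map_eq]
  have key : ∀ L : ℕ, (L : ℝ) * b - l ≤ (l * (L + 1) : ℕ) * ∫ y, F y ∂μ := by
    intro L
    have e1 : ∫ y, ∑ i ∈ range (l * (L + 1)), F (sh^[i] y) ∂μ =
        (l * (L + 1) : ℕ) * ∫ y, F y ∂μ := by
      rw [integral_finsetSum _ fun i _ => hint i]
      simp_rw [hinv]
      rw [sum_const, card_range, nsmul_eq_mul]
    rw [← e1]
    have e2 : (L : ℝ) * b - l = ∫ _, ((L : ℝ) * b - l) ∂μ := by simp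
    rw [e2]
    refine integral_mono_ae (integrable_const _) (integrable_finsetSum _ fun i _ => hint i) ?_
    filter_upwards [hY] with y hy
    obtain ⟨a, ha, hq⟩ := h y hy
    have e3 : l * (L + 1) = a + (l * L + (l - a)) := by
      rw [mul_add, mul_one]; omega
    have hlow : ∀ z, -1 ≤ F z := fun z => (abs_le.1 (hb z)).1
    change (L : ℝ) * b - l ≤ ∑ i ∈ range (l * (L + 1)), F (sh^[i] y)
    rw [e3, sum_range_add, sum_range_add, sum_blocks]
    have p1 : -(a : ℝ) ≤ ∑ i ∈ range a, F (sh^[i] y) := by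
      calc -(a : ℝ) = ∑ i ∈ range a, (-1 : ℝ) := by simp
        _ ≤ _ := sum_le_sum fun i _ => hlow _
    have p2 : -((l : ℝ) - a) ≤ ∑ x ∈ range (l - a), F (sh^[a + (l * L + x)] y) := by
      calc -((l : ℝ) - a) = ∑ i ∈ range (l - a), (-1 : ℝ) := by
            rw [sum_const, card_range, nsmul_eq_mul, Nat.cast_sub ha.le]; ring
        _ ≤ _ := sum_le_sum fun i _ => hlow _
    have p3 : (L : ℝ) * b ≤ ∑ j ∈ range L, ∑ r ∈ range l, F (sh^[a + (l * j + r)] y) := by
      calc (L : ℝ) * b = ∑ j ∈ range L, b := by simp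
        _ ≤ _ := sum_le_sum fun j _ => by
          refine (hq j).trans (le_of_eq (sum_congr rfl fun r _ => ?_))
          rw [add_assoc]
    linarith
  by_contra hcon
  push Not at hcon
  set I := ∫ y, F y ∂μ with hI
  obtain ⟨L, hL⟩ := exists_nat_gt ((b + l) / (b - l * I))
  have hd : 0 < b - l * I := by linarith
  rw [div_lt_iff₀ hd] at hL
  have := key L
  push_cast at this
  nlinarith

/-- the letters at distance `n ≥ 1` differ with probability at least `1 / 4` -/
theorem diff_prob {μ : Measure (ℤ → Bool)} [IsProbabilityMeasure μ]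
    (hμ : MeasurePreserving sh μ μ) (hY : ∀ k, ∀ᵐ y ∂μ, y ∈ YY k) (n : ℕ) (hn : 1 ≤ n) :
    1 / 4 ≤ ∫ y, df (y 0) (y n) ∂μ := by
  have hm : Measurable fun y : ℤ → Bool => df (y 0) (y n) := by
    have : Continuous fun y : ℤ → Bool => df (y 0) (y n) := by
      have h1 : Continuous fun p : Bool × Bool => df p.1 p.2 := continuous_of_discreteTopology
      have h2 : Continuous fun y : ℤ → Bool => (y 0, y (n : ℤ)) := by fun_prop
      exact h1.comp h2
    exact this.measurable
  have key : ∀ k, (ll k : ℝ) / 4 - 3 * n ≤ ll k * ∫ y, df (y 0) (y n) ∂μ := by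
    intro k
    refine avg hμ _ hm (fun y => ?_) (ll k) _ (hY k) ?_
    · rw [abs_of_nonneg (df_nonneg _ _)]
      exact df_le_one _ _
    · rintro y ⟨a, ha⟩
      obtain ⟨a', h1, h2⟩ := Cat_norm ha
      refine ⟨a', h1, fun q => ?_⟩
      obtain ⟨c, hc⟩ := h2 q
      refine (block_diff k c n hn).trans ?_
      have e1 : ∀ i, df (sh^[a' + ll k * q + i] y 0) (sh^[a' + ll k * q + i] y n) =
          df (y (a' + q * ll k + i)) (y (a' + q * ll k + (i + n))) := by
        intro i
        rw [sh_iter, sh_iter]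
        congr 2
        · push_cast; ring
        · push_cast; ring
      simp_rw [e1]
      have e2 : ∑ r ∈ range (ll k - n), df (Bl k c r) (Bl k c (r + n)) =
          ∑ r ∈ range (ll k - n), df (y (a' + q * ll k + r)) (y (a' + q * ll k + (r + n))) := by
        refine sum_congr rfl fun r hr => ?_
        rw [mem_range] at hr
        have q1 := hc r (by omega)
        have q2 := hc (r + n) (by omega)
        push_cast at q2
        rw [← q1, ← q2]
      rw [e2]
      exact sum_le_sum_of_subset_of_nonneg (range_subset_range.2 (by omega))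
        fun _ _ _ => df_nonneg _ _
  by_contra hcon
  push Not at hcon
  set I := ∫ y, df (y 0) (y n) ∂μ with hI
  obtain ⟨k, hk⟩ := exists_nat_gt (3 * n / (1 / 4 - I))
  have hd : 0 < 1 / 4 - I := by linarith
  rw [div_lt_iff₀ hd] at hk
  have h1 := key k
  have h2 : (k : ℝ) < ll k := by exact_mod_cast lt_ll k
  nlinarith

/-- indicator function of a set -/
noncomputable def ind (t : Set (ℤ → Bool)) (y : ℤ → Bool) : ℝ := t.indicator (fun _ => (1 : ℝ)) y

lemma ind_nonneg (t : Set (ℤ → Bool)) (y : ℤ → Bool) : 0 ≤ ind t y := by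
  unfold ind; exact Set.indicator_nonneg (fun _ _ => zero_le_one) _
lemma ind_le_one (t : Set (ℤ → Bool)) (y : ℤ → Bool) : ind t y ≤ 1 := by
  unfold ind; exact Set.indicator_le_self' (fun _ _ => zero_le_one) _
lemma ind_sq (t : Set (ℤ → Bool)) (y : ℤ → Bool) : ind t y * ind t y = ind t y := by
  unfold ind
  by_cases h : y ∈ t <;> simp [h]
lemma ind_congr {t : Set (ℤ → Bool)} {y z : ℤ → Bool} (h : y ∈ t ↔ z ∈ t) :
    ind t y = ind t z := by
  unfold ind
  by_cases h1 : y ∈ t
  · have := h.1 h1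
    simp [h1, this]
  · have : z ∉ t := fun h2 => h1 (h.2 h2)
    simp [h1, this]

/-- sum over a block of level `k + 1` -/
lemma block_rep (k : ℕ) (c : Bool) (t : Set (ℤ → Bool)) (R : ℕ)
    (ht : ∀ y z : ℤ → Bool, (∀ i : ℤ, |i| ≤ R → y i = z i) → (y ∈ t ↔ z ∈ t))
    (y : ℤ → Bool) (P : ℕ) (hy : ∀ r : ℕ, r < ll (k + 1) → y (P + r) = Bl (k + 1) c r) :
    -(2 * R / 5 * NN k : ℝ) ≤ ∑ i ∈ range (ll (k + 1)),
      (ind t (sh^[P + i] y) * ind t (sh^[P + (i + ll k)] y) - 1 / 5 * ind t (sh^[P + i] y)) := by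
  set g : ℕ → ℝ := fun i => ind t (sh^[P + i] y) with hg
  have g0 : ∀ i, 0 ≤ g i := fun i => ind_nonneg _ _
  have g1 : ∀ i, g i ≤ 1 := fun i => ind_le_one _ _
  set G : Bool → ℕ → ℝ := fun s r => ind t (fun i => Bl k s ((r : ℤ) + i).toNat) with hG
  set Φ : Bool → ℝ := fun s => ∑ r ∈ Ico R (ll k - R), G s r with hΦ
  have Φ0 : ∀ s, 0 ≤ Φ s := fun s => sum_nonneg fun _ _ => ind_nonneg _ _
  have hgG : ∀ j, j < NN k → ∀ r ∈ Ico R (ll k - R), g (ll k * j + r) = G (ww k c j) r := by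
    intro j hj r hr
    rw [mem_Ico] at hr
    apply ind_congr
    apply ht
    intro i hi
    rw [abs_le] at hi
    rw [sh_iter]
    have h1 : 0 ≤ (r : ℤ) + i := by omega
    have h2 : (r : ℤ) + i < ll k := by omega
    have h3 : ((r : ℤ) + i).toNat < ll k := by omega
    have h4 : ll k * j + ((r : ℤ) + i).toNat < ll (k + 1) := by
      rw [ll]
      calc ll k * j + ((r : ℤ) + i).toNat < ll k * j + ll k := by omega
        _ = ll k * (j + 1) := by ring
        _ ≤ ll k * NN k := Nat.mul_le_mul_left _ (by omega)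
    have h5 := hy _ h4
    rw [Bl_succ k c j _ h3] at h5
    rw [← h5]
    congr 1
    push_cast
    rw [Int.toNat_of_nonneg h1]
    ring
  have hup : ∀ j, j < NN k → ∑ r ∈ range (ll k), g (ll k * j + r) ≤ Φ (ww k c j) + 2 * R := by
    intro j hj
    have hsub : Ico R (ll k - R) ⊆ range (ll k) := by
      intro r hr
      rw [mem_Ico] at hr
      rw [mem_range]
      omega
    rw [← sum_sdiff hsub, sum_congr rfl (hgG j hj)]
    have : ∑ r ∈ range (ll k) \ Ico R (ll k - R), g (ll k * j + r) ≤ 2 * R := by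
      calc _ ≤ ∑ r ∈ range (ll k) \ Ico R (ll k - R), (1 : ℝ) := sum_le_sum fun r _ => g1 _
        _ = ((range (ll k) \ Ico R (ll k - R)).card : ℝ) := by simp
        _ ≤ 2 * R := by
          rw [card_sdiff_of_subset hsub, card_range, Nat.card_Ico]
          have : ll k - (ll k - R - R) ≤ 2 * R := by omega
          exact_mod_cast this
    linarith
  have hNN : NN k = 4 * 4 ^ (k + 2) := by
    unfold NN; rw [show k + 3 = (k + 2) + 1 by ring, pow_succ]; ring
  -- lower bound for the products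
  have hlow : ∑ i ∈ range (4 ^ (k + 2)), Φ (ww k c (4 * i + 1)) ≤
      ∑ j ∈ range (NN k), ∑ r ∈ range (ll k), g (ll k * j + r) * g (ll k * j + r + ll k) := by
    set h : ℕ → ℝ := fun j => ∑ r ∈ range (ll k), g (ll k * j + r) * g (ll k * j + r + ll k)
      with hh
    have h0 : ∀ j, 0 ≤ h j := fun j => sum_nonneg fun r _ => mul_nonneg (g0 _) (g0 _)
    have e1 : ∑ j ∈ range (NN k), h j = ∑ i ∈ range (4 ^ (k + 2)), ∑ s ∈ range 4, h (4 * i + s) := by
      rw [hNN, sum_blocks]
    rw [e1]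
    refine sum_le_sum fun i hi => ?_
    rw [mem_range] at hi
    have e2 : h (4 * i + 1) ≤ ∑ s ∈ range 4, h (4 * i + s) :=
      single_le_sum (f := fun s => h (4 * i + s)) (fun s _ => h0 _) (mem_range.2 (by norm_num))
    refine le_trans ?_ e2
    have hw : ww k c (4 * i + 2) = ww k c (4 * i + 1) := by
      unfold ww
      rw [if_neg (by omega), if_neg (by omega)]
      rw [show 4 * i + 2 = 2 * (2 * i + 1) by ring, show 4 * i + 1 = 2 * (2 * i) + 1 by ring,
        tm_two, tm_two_one, tm_two_one, tm_two]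
    have hsub : Ico R (ll k - R) ⊆ range (ll k) := by
      intro r hr
      rw [mem_Ico] at hr
      rw [mem_range]
      omega
    have e3 : ∑ r ∈ Ico R (ll k - R), g (ll k * (4 * i + 1) + r) *
        g (ll k * (4 * i + 1) + r + ll k) ≤ h (4 * i + 1) :=
      sum_le_sum_of_subset_of_nonneg hsub fun _ _ _ => mul_nonneg (g0 _) (g0 _)
    refine le_trans (le_of_eq ?_) e3
    refine sum_congr rfl fun r hr => ?_
    have e4 : ll k * (4 * i + 1) + r + ll k = ll k * (4 * i + 2) + r := by ring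
    rw [e4, hgG (4 * i + 1) (by omega) r hr, hgG (4 * i + 2) (by omega) r hr, hw]
    exact (ind_sq _ _).symm
  rw [sum_pairs] at hlow
  have hall := sum_all k c Φ Φ0
  have e5 : ∑ i ∈ range (ll (k + 1)),
      (ind t (sh^[P + i] y) * ind t (sh^[P + (i + ll k)] y) - 1 / 5 * ind t (sh^[P + i] y)) =
      (∑ j ∈ range (NN k), ∑ r ∈ range (ll k), g (ll k * j + r) * g (ll k * j + r + ll k)) -
      1 / 5 * ∑ j ∈ range (NN k), ∑ r ∈ range (ll k), g (ll k * j + r) := by
    rw [ll, sum_blocks, mul_sum, ← sum_sub_distrib]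
    refine sum_congr rfl fun j _ => ?_
    rw [mul_sum, ← sum_sub_distrib]
  rw [e5]
  have e6 : ∑ j ∈ range (NN k), ∑ r ∈ range (ll k), g (ll k * j + r) ≤
      (NN k / 2 + 2 : ℝ) * (Φ false + Φ true) + 2 * R * NN k := by
    calc _ ≤ ∑ j ∈ range (NN k), (Φ (ww k c j) + 2 * R) :=
          sum_le_sum fun j hj => hup j (mem_range.1 hj)
      _ = ∑ j ∈ range (NN k), Φ (ww k c j) + NN k * (2 * R) := by
          rw [sum_add_distrib, sum_const, card_range, nsmul_eq_mul]
      _ ≤ _ := by linarith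
  have hN : (64 : ℝ) ≤ NN k := by exact_mod_cast NN_ge k
  have hN4 : (4 : ℝ) ^ (k + 2) = NN k / 4 := by rw [hNN]; push_cast; ring
  rw [hN4] at hlow
  have hS : 0 ≤ Φ false + Φ true := add_nonneg (Φ0 _) (Φ0 _)
  nlinarith

theorem rep_prob {μ : Measure (ℤ → Bool)} [IsProbabilityMeasure μ]
    (hμ : MeasurePreserving sh μ μ) (hY : ∀ k, ∀ᵐ y ∂μ, y ∈ YY k) (t : Set (ℤ → Bool))
    (htm : MeasurableSet t) (R : ℕ)
    (ht : ∀ y z : ℤ → Bool, (∀ i : ℤ, |i| ≤ R → y i = z i) → (y ∈ t ↔ z ∈ t)) (k : ℕ) :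
    1 / 5 * μ.real t - R / ll k ≤ μ.real (t ∩ sh^[ll k] ⁻¹' t) := by
  have hm : Measurable (ind t) := measurable_const.indicator htm
  have hm2 : Measurable fun y => ind t (sh^[ll k] y) := hm.comp (measurable_sh.iterate _)
  have i1 : Integrable (ind t) μ := by
    refine Integrable.of_bound (C := 1) hm.aestronglyMeasurable (ae_of_all _ fun y => ?_)
    rw [Real.norm_eq_abs, abs_of_nonneg (ind_nonneg _ _)]
    exact ind_le_one _ _
  have i2 : Integrable (fun y => ind t y * ind t (sh^[ll k] y)) μ := by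
    refine Integrable.of_bound (C := 1) (hm.mul hm2).aestronglyMeasurable (ae_of_all _ fun y => ?_)
    rw [Real.norm_eq_abs, abs_of_nonneg (mul_nonneg (ind_nonneg _ _) (ind_nonneg _ _))]
    exact mul_le_one₀ (ind_le_one _ _) (ind_nonneg _ _) (ind_le_one _ _)
  have h1 := avg hμ (fun y => ind t y * ind t (sh^[ll k] y) - 1 / 5 * ind t y)
    ((hm.mul hm2).sub (hm.const_mul _)) (fun y => by
      have a1 := ind_nonneg t y
      have a2 := ind_le_one t y
      have a3 := ind_nonneg t (sh^[ll k] y)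
      have a4 := ind_le_one t (sh^[ll k] y)
      rw [abs_le]
      constructor
      · nlinarith [mul_nonneg a1 a3]
      · nlinarith [mul_le_one₀ a2 a3 a4]) (ll (k + 1)) (-(2 * R / 5 * NN k : ℝ)) (hY (k + 1)) (by
    rintro y ⟨a, ha⟩
    obtain ⟨a', h1, h2⟩ := Cat_norm ha
    refine ⟨a', h1, fun q => ?_⟩
    obtain ⟨c, hc⟩ := h2 q
    have := block_rep k c t R ht y (a' + ll (k + 1) * q) (fun r hr => by
      rw [← hc r hr]
      congr 1
      push_cast
      ring)
    refine this.trans (le_of_eq (sum_congr rfl fun i _ => ?_))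
    have e1 : sh^[ll k] (sh^[a' + ll (k + 1) * q + i] y) =
        sh^[a' + ll (k + 1) * q + (i + ll k)] y := by
      rw [← Function.iterate_add_apply]
      congr 1
      ring
    rw [e1])
  rw [integral_sub i2 (i1.const_mul _), integral_const_mul] at h1
  have e1 : ∫ y, ind t y ∂μ = μ.real t := by
    unfold ind
    rw [integral_indicator_const _ htm]
    simp
  have e2 : ∫ y, ind t y * ind t (sh^[ll k] y) ∂μ = μ.real (t ∩ sh^[ll k] ⁻¹' t) := by
    have : (fun y => ind t y * ind t (sh^[ll k] y)) =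
        (t ∩ sh^[ll k] ⁻¹' t).indicator (fun _ => (1 : ℝ)) := by
      funext y
      unfold ind
      by_cases h1 : y ∈ t <;> by_cases h2 : sh^[ll k] y ∈ t <;> simp [h1, h2]
    rw [this, integral_indicator_const _ (htm.inter ((measurable_sh.iterate _) htm))]
    simp
  rw [e1, e2] at h1
  have hl : (0 : ℝ) < ll k := by exact_mod_cast ll_pos k
  have hN : (0 : ℝ) < NN k := by exact_mod_cast NN_pos k
  have e3 : (ll (k + 1) : ℝ) = ll k * NN k := by rw [ll]; push_cast; ring
  rw [e3] at h1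
  have hR : (0 : ℝ) ≤ R := by positivity
  have h2 : -(2 * R / 5 : ℝ) ≤ ll k * (μ.real (t ∩ sh^[ll k] ⁻¹' t) - 1 / 5 * μ.real t) := by
    by_contra hcon
    push Not at hcon
    nlinarith
  have h3 : (R : ℝ) / ll k * ll k = R := by field_simp
  by_contra hcon
  push Not at hcon
  nlinarith

end Pool.Agent.H96toe
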